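import Pool.Agent.H90J.Rank

/-! No finite rank relations in the joinings tested by the property `S_n`. -/

set_option linter.style.longLine false
set_option linter.unusedSectionVars false

namespace Pool.Agent.Results.MP_9e1fbb_an.FiniteRank

open MeasureTheory ProbabilityTheory Filter Topology Pool.Agent.H90J

section

variable {X : Type*} [MeasurableSpace X] (μ : Measure X) [IsProbabilityMeasure μ] {n : ℕ}
  (ν : Measure (Fin n → X)) [IsProbabilityMeasure ν]

lemma map_eval {k : Fin n}
    (hind : ν.map (fun x (j : {j : Fin n // j ≠ k}) => x j) = Measure.pi (fun _ => μ))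
    {j : Fin n} (hj : j ≠ k) : ν.map (fun x => x j) = μ := by
  have h1 : ν.map (fun x => x j) = (ν.map (fun x (j : {j : Fin n // j ≠ k}) => x j)).map
      (Function.eval ⟨j, hj⟩) := by
    have m1 : Measurable (Function.eval (β := fun _ : {j : Fin n // j ≠ k} => X) ⟨j, hj⟩) :=
      measurable_pi_apply _
    have m2 : Measurable (fun (x : Fin n → X) (j : {j : Fin n // j ≠ k}) => x j) :=
      measurable_pi_lambda _ fun i => measurable_pi_apply _
    rw [Measure.map_map m1 m2]
    rfl
  rw [h1, hind]
  exact (measurePreserving_eval (fun _ : {j : Fin n // j ≠ k} => μ) ⟨j, hj⟩).map_eq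

lemma iIndep {k : Fin n}
    (hind : ν.map (fun x (j : {j : Fin n // j ≠ k}) => x j) = Measure.pi (fun _ => μ)) :
    iIndepFun (fun (j : {j : Fin n // j ≠ k}) (x : Fin n → X) => x j) ν := by
  rw [iIndepFun_iff_map_fun_eq_pi_map (fun j => (measurable_pi_apply _).aemeasurable), hind]
  congr 1
  funext j
  exact (map_eval μ ν hind j.2).symm

/-- a coordinate is independent of the remaining coordinates of an independent family -/
lemma indep_rest {k : Fin n}
    (hind : ν.map (fun x (j : {j : Fin n // j ≠ k}) => x j) = Measure.pi (fun _ => μ))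
    {i : Fin n} (hi : i ≠ k) {J : Type*} (e : J → Fin n) (he : ∀ j, e j ≠ k ∧ e j ≠ i) :
    IndepFun (fun x : Fin n → X => x i) (fun x (j : J) => x (e j)) ν := by
  classical
  have h := iIndep μ ν hind
  have h2 := h.indepFun_finset {⟨i, hi⟩} (Finset.univ \ {⟨i, hi⟩})
    (Finset.disjoint_sdiff) (fun j => measurable_pi_apply _)
  have := h2.comp (φ := fun (v : ({⟨i, hi⟩} : Finset {j : Fin n // j ≠ k}) → X) =>
      v ⟨⟨i, hi⟩, Finset.mem_singleton_self _⟩)
    (ψ := fun (v : ((Finset.univ \ {⟨i, hi⟩} : Finset {j : Fin n // j ≠ k})) → X) (j : J) =>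
      v ⟨⟨e j, (he j).1⟩, by
        simp only [Finset.mem_sdiff, Finset.mem_univ, Finset.mem_singleton, true_and]
        intro h; exact (he j).2 (congrArg Subtype.val h)⟩)
    (measurable_pi_apply (X := fun _ : ({⟨i, hi⟩} : Finset {j : Fin n // j ≠ k}) => X)
      ⟨⟨i, hi⟩, Finset.mem_singleton_self _⟩)
    (measurable_pi_lambda _ fun j => measurable_pi_apply _)
  exact this

end

/-- Let `T` be a weakly mixing automorphism with zero Kolmogorov-Sinai entropy and let `ν` be a
self-joining of order `n ≥ 3` all of whose `(n-1)`-dimensional marginals are product measures (the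
joinings tested by the property `S_n`).  If the indicator of an event of the coordinate `x k` is
`ν`-almost everywhere a finite sum of products of a function of one other coordinate `x i` and a
function of the remaining coordinates, then the event is trivial. -/
theorem result {X : Type*} [MeasurableSpace X] [StandardBorelSpace X]
    (μ : Measure X) [IsProbabilityMeasure μ] (T : X ≃ᵐ X) (hT : MeasurePreserving T μ μ)
    (hmix : Ergodic (Prod.map T T) (μ.prod μ))
    (hent : ∀ (m : ℕ) (α : X → Fin m), Measurable α →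
      Tendsto (fun N : ℕ => (∑ w : Fin N → Fin m,
        Real.negMulLog (μ.real {x | ∀ j : Fin N, α (T^[j] x) = w j})) / N) atTop (𝓝 0))
    {n : ℕ} (hn : 3 ≤ n) (ν : Measure (Fin n → X)) [IsProbabilityMeasure ν]
    (hν : MeasurePreserving (fun x j => T (x j)) ν ν)
    (hind : ∀ k : Fin n,
      ν.map (fun x (j : {j : Fin n // j ≠ k}) => x j) = Measure.pi (fun _ => μ))
    (i k : Fin n) (hik : i ≠ k) (C : Set X) (hC : MeasurableSet C)
    {r : ℕ} (f : Fin r → X → ℝ) (g : Fin r → ({j : Fin n // j ≠ i ∧ j ≠ k} → X) → ℝ)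
    (hf : ∀ l, Measurable (f l)) (hg : ∀ l, Measurable (g l))
    (hrel : ∀ᵐ x ∂ν, C.indicator (fun _ => (1 : ℝ)) (x k)
      = ∑ l, f l (x i) * g l (fun j => x j)) :
    μ C = 0 ∨ μ C = 1 := by
  classical
  -- a third coordinate
  obtain ⟨l, hl1, hl2⟩ : ∃ l : Fin n, l ≠ i ∧ l ≠ k := by
    by_contra hcon
    push Not at hcon
    have hcard : Fintype.card (Fin n) ≤ ({i, k} : Finset (Fin n)).card := by
      rw [← Finset.card_univ]
      apply Finset.card_le_card
      intro l _
      by_cases h : l = i
      · simp [h]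
      · simp [hcon l h]
    have : ({i, k} : Finset (Fin n)).card ≤ 2 := Finset.card_le_two
    simp at hcard
    omega
  let S : ({j : Fin n // j ≠ i ∧ j ≠ k} → X) → ({j : Fin n // j ≠ i ∧ j ≠ k} → X) :=
    fun y j => T (y j)
  have hS : Measurable S :=
    measurable_pi_lambda _ fun j => T.measurable.comp (measurable_pi_apply _)
  have hk : ν.map (fun x => x k) = μ := map_eval μ ν (hind i) hik.symm
  have hi : ν.map (fun x => x i) = μ := map_eval μ ν (hind k) hik
  have ixy : IndepFun (fun x : Fin n → X => x i)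
      (fun x (j : {j : Fin n // j ≠ i ∧ j ≠ k}) => x j) ν :=
    indep_rest μ ν (hind k) hik (fun j : {j : Fin n // j ≠ i ∧ j ≠ k} => j.1)
      fun j => ⟨j.2.2, j.2.1⟩
  have izy : IndepFun (fun x : Fin n → X => x k)
      (fun x (j : {j : Fin n // j ≠ i ∧ j ≠ k}) => x j) ν :=
    indep_rest μ ν (hind i) hik.symm (fun j : {j : Fin n // j ≠ i ∧ j ≠ k} => j.1)
      fun j => ⟨j.2.1, j.2.2⟩
  have ixz : IndepFun (fun x : Fin n → X => x i) (fun x : Fin n → X => x k) ν :=
    (iIndep μ ν (hind l)).indepFun
      (show (⟨i, hl1.symm⟩ : {j : Fin n // j ≠ l}) ≠ ⟨k, hl2.symm⟩ from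
        fun h => hik (congrArg Subtype.val h))
  have main := finite_rank ν hν (T := T) (S := S) (R := T) T.measurable hS T.measurable
    (x := fun x => x i) (y := fun x j => x j) (z := fun x => x k)
    (measurable_pi_apply _) (measurable_pi_lambda _ fun j => measurable_pi_apply _)
    (measurable_pi_apply _) (fun _ => rfl) (fun _ => rfl) (fun _ => rfl)
    ixy ixz izy.symm (by rw [hi]; exact hmix) hC
    (by
      rw [hk]
      exact hent 2 (ltr C) (measurable_ltr hC)) hf hg hrel
  have e : ν ((fun x : Fin n → X => x k) ⁻¹' C) = μ C := by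
    rw [← Measure.map_apply (measurable_pi_apply _) hC, hk]
  rw [e] at main
  exact main

end Pool.Agent.Results.MP_9e1fbb_an.FiniteRank
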