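import Pool.Agent.H52M.Step

/-! Property `S_n` and relatively rigid extensions of mildly mixing maps. -/

set_option linter.style.longLine false
set_option linter.unusedSectionVars false

namespace Pool.Agent.Results.MP_9e1fbb_an.RelRigidMild

open MeasureTheory Filter Topology Pool.Agent.H52J

/-- Property `S_n` of the map `T` of `(X, μ)`: every self-joining of order `n` all of whose
projections onto `n - 1` coordinates are `μ^(n-1)` is `μ^n`. -/
def PropS {X : Type*} [MeasurableSpace X] (μ : Measure X) (T : X → X) (n : ℕ) : Prop :=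
  ∀ ν : Measure (Fin n → X), IsProbabilityMeasure ν →
    MeasurePreserving (fun x j => T (x j)) ν ν →
    (∀ k : Fin n, ν.map (fun x (j : {j : Fin n // j ≠ k}) => x j) = Measure.pi fun _ => μ) →
    ν = Measure.pi fun _ => μ

/-- The map `T` of `(X, μ)` is mildly mixing: it has no nonconstant rigid function. A rigid
function is here a measurable `h : X → [-1, 1]` for which `∫ |h ∘ T^k - h|` is arbitrarily small
for arbitrarily large `k`. -/
def MildlyMixing {X : Type*} [MeasurableSpace X] (μ : Measure X) (T : X → X) : Prop :=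
  ∀ h : X → ℝ, Measurable h → (∀ x, |h x| ≤ 1) →
    (∀ δ > 0, ∃ᶠ k in atTop, ∫ x, |h (T^[k] x) - h x| ∂μ < δ) → ∃ c : ℝ, ∀ᵐ x ∂μ, h x = c

section aux

variable {X : Type*} [MeasurableSpace X] {μ : Measure X} [IsProbabilityMeasure μ] {n : ℕ}

lemma measurable_res (k : Fin n) :
    Measurable (fun (x : Fin n → X) (j : {j : Fin n // j ≠ k}) => x j) :=
  measurable_pi_lambda _ fun j => measurable_pi_apply j.1

lemma pi_res (k : Fin n) : (Measure.pi fun _ : Fin n => μ).map
    (fun x (j : {j : Fin n // j ≠ k}) => x j) = Measure.pi fun _ => μ := by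
  have h := measurePreserving_piEquivPiSubtypeProd (fun _ : Fin n => μ) (fun j => j ≠ k)
  have h2 : (fun (x : Fin n → X) (j : {j : Fin n // j ≠ k}) => x j)
      = Prod.fst ∘ (MeasurableEquiv.piEquivPiSubtypeProd (fun _ : Fin n => X) (fun j => j ≠ k)) := by
    funext x j
    rfl
  rw [h2, ← Measure.map_map measurable_fst (MeasurableEquiv.measurable _), h.map_eq,
    Measure.map_fst_prod, measure_univ, one_smul]

lemma map_eval {ν : Measure (Fin n → X)} {j k : Fin n} (hj : j ≠ k)
    (h : ν.map (fun x (j : {j : Fin n // j ≠ k}) => x j) = Measure.pi fun _ => μ) :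
    ν.map (fun x => x j) = μ := by
  have h2 : (fun (x : Fin n → X) => x j)
      = (fun y : ({j : Fin n // j ≠ k} → X) => y ⟨j, hj⟩)
        ∘ (fun x (j : {j : Fin n // j ≠ k}) => x j) := rfl
  rw [h2, ← Measure.map_map (measurable_pi_apply _) (measurable_res k), h]
  exact (measurePreserving_eval (fun _ : {j : Fin n // j ≠ k} => μ) ⟨j, hj⟩).map_eq

end aux

/-- Let `T (w, f) = (T₀ w, φ_w f)` be a mildly mixing automorphism of a standard probability
space, a skew product over the automorphism `T₀`, which is relatively rigid over `T₀`: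
for every measurable `B ⊂ F` and `ε > 0`, for almost every `w`, the set of `f` for which `f ∈ B`
and `(T^k (w, f)).2 ∈ B` are not equivalent has measure `< ε` for infinitely many `k`.
Then every self-joining of `T` whose base coordinates are independent is the product measure, and
for every `n ≥ 3` the map `T` has property `S_n` if and only if `T₀` has. -/
theorem result {W F : Type*} [MeasurableSpace W] [StandardBorelSpace W] [MeasurableSpace F]
    [StandardBorelSpace F]
    (lam : Measure W) [IsProbabilityMeasure lam] (m : Measure F) [IsProbabilityMeasure m]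
    (T₀ : W ≃ᵐ W) (hT₀ : MeasurePreserving T₀ lam lam)
    (φ : W → F → F) (hφ : Measurable (Function.uncurry φ))
    (hφm : ∀ w, MeasurePreserving (φ w) m m)
    (T : W × F ≃ᵐ W × F) (hT : ∀ x, T x = (T₀ x.1, φ x.1 x.2))
    (hmild : MildlyMixing (lam.prod m) T)
    (hrig : ∀ B : Set F, MeasurableSet B → ∀ ε > 0, ∀ᵐ w ∂lam, ∃ᶠ k in atTop,
      m.real {f | ¬(f ∈ B ↔ (T^[k] (w, f)).2 ∈ B)} < ε) :
    (∀ (n : ℕ) (ν : Measure (Fin n → W × F)), IsProbabilityMeasure ν →
      MeasurePreserving (fun x j => T (x j)) ν ν →
      (∀ j, ν.map (fun x => x j) = lam.prod m) →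
      ν.map (fun x j => (x j).1) = Measure.pi (fun _ => lam) →
      ν = Measure.pi fun _ => lam.prod m) ∧
    ∀ n, 3 ≤ n → (PropS (lam.prod m) T n ↔ PropS lam T₀ n) := by
  have hTs : (T : W × F → W × F) = skew T₀ φ := funext hT
  have hrec : ∀ B : Set F, MeasurableSet B → ∀ ε > 0, ∀ᵐ w ∂lam, ∃ᶠ k in atTop,
      dd m T₀ φ B w 0 k < ε := by
    intro B hB ε hε
    filter_upwards [hrig B hB ε hε] with w hw
    refine hw.mono fun k hk => ?_
    rw [hTs] at hk
    exact hk
  have part1 : ∀ (n : ℕ) (ν : Measure (Fin n → W × F)), IsProbabilityMeasure ν →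
      MeasurePreserving (fun x j => T (x j)) ν ν →
      (∀ j, ν.map (fun x => x j) = lam.prod m) →
      ν.map (fun x j => (x j).1) = Measure.pi (fun _ => lam) →
      ν = Measure.pi fun _ => lam.prod m := by
    intro n ν _ hν hmarg hbase
    exact Pool.Agent.H52M.eq_pi T₀ hT₀ hφ hφm T hTs hmild hrec hν hmarg hbase
  rw [hTs] at part1 ⊢
  refine ⟨part1, fun n hn => ⟨fun hS ν₀ hν₀ hinv hk => ?_, fun hS ν hν hinv hk => ?_⟩⟩
  · -- from `T` to its factor `T₀`
    let Ψ : (Fin n → W) × (Fin n → F) → (Fin n → W × F) := fun p j => (p.1 j, p.2 j)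
    have hΨ : Measurable Ψ := measurable_pi_lambda _ fun j =>
      ((measurable_pi_apply j).comp measurable_fst).prodMk
        ((measurable_pi_apply j).comp measurable_snd)
    let P : Measure ((Fin n → W) × (Fin n → F)) := ν₀.prod (Measure.pi fun _ => m)
    have hP : IsProbabilityMeasure (P.map Ψ) :=
      Measure.isProbabilityMeasure_map hΨ.aemeasurable
    -- invariance
    have hg : Measurable (Function.uncurry fun (x : Fin n → W) (y : Fin n → F) (j : Fin n) =>
        φ (x j) (y j)) := by
      apply measurable_pi_lambda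
      intro j
      have hj : Measurable fun c : (Fin n → W) × (Fin n → F) => (c.1 j, c.2 j) :=
        ((measurable_pi_apply j).comp measurable_fst).prodMk
          ((measurable_pi_apply j).comp measurable_snd)
      exact hφ.comp hj
    have hinv2 : MeasurePreserving (fun p : (Fin n → W) × (Fin n → F) =>
        ((fun j => T₀ (p.1 j)), fun j => φ (p.1 j) (p.2 j))) P P := by
      apply hinv.skew_product hg
      filter_upwards with x
      exact (measurePreserving_pi (fun _ : Fin n => m) (fun _ => m)
        (fun j => hφm (x j))).map_eq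
    have hcomm : (fun (x : Fin n → W × F) j => skew T₀ φ (x j)) ∘ Ψ
        = Ψ ∘ fun p : (Fin n → W) × (Fin n → F) =>
          ((fun j => T₀ (p.1 j)), fun j => φ (p.1 j) (p.2 j)) := rfl
    have hmT : Measurable (fun (x : Fin n → W × F) j => skew T₀ φ (x j)) :=
      measurable_pi_lambda _ fun j => (measurable_skew hT₀ hφ).comp (measurable_pi_apply j)
    have hpres : MeasurePreserving (fun x j => skew T₀ φ (x j)) (P.map Ψ) (P.map Ψ) := by
      refine ⟨hmT, ?_⟩
      rw [Measure.map_map hmT hΨ, hcomm, ← Measure.map_map hΨ hinv2.measurable, hinv2.map_eq]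
    -- marginals
    have hmargin : ∀ k : Fin n, (P.map Ψ).map (fun x (j : {j : Fin n // j ≠ k}) => x j)
        = Measure.pi fun _ => lam.prod m := by
      intro k
      let Ψ' : ({j : Fin n // j ≠ k} → W) × ({j : Fin n // j ≠ k} → F)
        → ({j : Fin n // j ≠ k} → W × F) := fun p j => (p.1 j, p.2 j)
      have hΨ' : Measurable Ψ' := measurable_pi_lambda _ fun j =>
        ((measurable_pi_apply j).comp measurable_fst).prodMk
          ((measurable_pi_apply j).comp measurable_snd)
      have e1 : (fun (x : Fin n → W × F) (j : {j : Fin n // j ≠ k}) => x j) ∘ Ψ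
          = Ψ' ∘ Prod.map (fun (x : Fin n → W) (j : {j : Fin n // j ≠ k}) => x j)
            (fun (x : Fin n → F) (j : {j : Fin n // j ≠ k}) => x j) := rfl
      rw [Measure.map_map (measurable_res k) hΨ, e1,
        ← Measure.map_map hΨ' ((measurable_res k).prodMap (measurable_res k)),
        ← Measure.map_prod_map _ _ (measurable_res k) (measurable_res k), hk k, pi_res k]
      have h := (measurePreserving_arrowProdEquivProdArrow W F {j : Fin n // j ≠ k}
        (fun _ => lam) (fun _ => m)).symm
      exact h.map_eq
    have hfin := hS (P.map Ψ) hP hpres hmargin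
    have hb : Measurable fun (x : Fin n → W × F) j => (x j).1 :=
      measurable_pi_lambda _ fun j => measurable_fst.comp (measurable_pi_apply j)
    have e2 : (P.map Ψ).map (fun x j => (x j).1) = ν₀ := by
      rw [Measure.map_map hb hΨ]
      have : (fun (x : Fin n → W × F) j => (x j).1) ∘ Ψ = Prod.fst := rfl
      rw [this, Measure.map_fst_prod, measure_univ, one_smul]
    rw [← e2, hfin, Measure.pi_map_pi (fun _ => measurable_fst.aemeasurable)]
    congr 1
    funext j
    rw [Measure.map_fst_prod, measure_univ, one_smul]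
  · -- from `T₀` to `T`
    have hb : Measurable fun (x : Fin n → W × F) j => (x j).1 :=
      measurable_pi_lambda _ fun j => measurable_fst.comp (measurable_pi_apply j)
    have hmT₀ : Measurable (fun (x : Fin n → W) j => T₀ (x j)) :=
      measurable_pi_lambda _ fun j => hT₀.measurable.comp (measurable_pi_apply j)
    apply part1 n ν hν hinv
    · intro j
      obtain ⟨k, hjk⟩ : ∃ k : Fin n, j ≠ k := by
        by_cases h : j = ⟨0, by omega⟩
        · exact ⟨⟨1, by omega⟩, by rw [h]; simp⟩
        · exact ⟨_, h⟩
      exact map_eval hjk (hk k)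
    · apply hS
      · exact Measure.isProbabilityMeasure_map hb.aemeasurable
      · refine ⟨hmT₀, ?_⟩
        have : (fun (x : Fin n → W) j => T₀ (x j)) ∘ (fun (x : Fin n → W × F) j => (x j).1)
            = (fun (x : Fin n → W × F) j => (x j).1) ∘ (fun x j => skew T₀ φ (x j)) := rfl
        rw [Measure.map_map hmT₀ hb, this, ← Measure.map_map hb hinv.measurable, hinv.map_eq]
      · intro k
        have hb' : Measurable fun (x : {j : Fin n // j ≠ k} → W × F) j => (x j).1 :=
          measurable_pi_lambda _ fun j => measurable_fst.comp (measurable_pi_apply j)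
        have : (fun (x : Fin n → W) (j : {j : Fin n // j ≠ k}) => x j)
            ∘ (fun (x : Fin n → W × F) j => (x j).1)
            = (fun (x : {j : Fin n // j ≠ k} → W × F) j => (x j).1)
              ∘ (fun (x : Fin n → W × F) (j : {j : Fin n // j ≠ k}) => x j) := rfl
        rw [Measure.map_map (measurable_res k) hb, this,
          ← Measure.map_map hb' (measurable_res k), hk k,
          Measure.pi_map_pi (fun _ => measurable_fst.aemeasurable)]
        congr 1
        funext j
        rw [Measure.map_fst_prod, measure_univ, one_smul]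

end Pool.Agent.Results.MP_9e1fbb_an.RelRigidMild
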