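import Pool.Agent.Results.MP_9e1fbb_an.RelRigidMild
import Pool.Agent.H52M.PartialS

/-! Property `S_n` for relatively rigid extensions of maps some powers of which converge to a
proper mixture of the identity and the projection onto constants. -/

set_option linter.style.longLine false
set_option linter.unusedSectionVars false

namespace Pool.Agent.Results.MP_9e1fbb_an.RelRigidPartial

open MeasureTheory Filter Topology Pool.Agent.Results.MP_9e1fbb_an.RelRigidMild

/-- Let `T (w, f) = (T₀ w, φ_w f)` be a mildly mixing automorphism of a standard probability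
space, a skew product over the automorphism `T₀`, which is relatively rigid over `T₀`, and suppose
that `λ (A ∩ T₀^{-k_j} B) → a λ (A ∩ B) + (1 - a) λ A λ B` for all measurable `A` and `B`, for some
sequence `k_j` and some `0 < a < 1`. Then `T` has property `S_n` for every `n ≥ 3`. -/
theorem result {W F : Type*} [MeasurableSpace W] [StandardBorelSpace W] [MeasurableSpace F]
    [StandardBorelSpace F]
    (lam : Measure W) [IsProbabilityMeasure lam] (m : Measure F) [IsProbabilityMeasure m]
    (T₀ : W ≃ᵐ W) (hT₀ : MeasurePreserving T₀ lam lam)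
    (φ : W → F → F) (hφ : Measurable (Function.uncurry φ))
    (hφm : ∀ w, MeasurePreserving (φ w) m m)
    (T : W × F ≃ᵐ W × F) (hT : ∀ x, T x = (T₀ x.1, φ x.1 x.2))
    (hmild : MildlyMixing (lam.prod m) T)
    (hrig : ∀ B : Set F, MeasurableSet B → ∀ ε > 0, ∀ᵐ w ∂lam, ∃ᶠ k in atTop,
      m.real {f | ¬(f ∈ B ↔ (T^[k] (w, f)).2 ∈ B)} < ε)
    (k : ℕ → ℕ) (a : ℝ) (ha0 : 0 < a) (ha1 : a < 1)
    (hlim : ∀ A B : Set W, MeasurableSet A → MeasurableSet B →
      Tendsto (fun j => lam.real (A ∩ T₀^[k j] ⁻¹' B)) atTop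
        (𝓝 (a * lam.real (A ∩ B) + (1 - a) * (lam.real A * lam.real B)))) :
    ∀ n, 3 ≤ n → PropS (lam.prod m) T n := by
  intro n hn
  apply ((RelRigidMild.result lam m T₀ hT₀ φ hφ hφm T hT hmild hrig).2 n hn).mpr
  intro ν _ hν hk
  exact Pool.Agent.H52M.propS_of_partial hn T₀ hT₀ ha0 ha1 hlim ν hν hk

end Pool.Agent.Results.MP_9e1fbb_an.RelRigidPartial
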